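import Pool.Agent.Q213.CS.MainB

/-!
# `ℚ`-selective spaces and `C`-selective spaces

Q1 asks whether there is a `T₁` space which is `ℚ`-selective but not `C`-selective. The question is
independent of the axioms of set theory.

* The continuum hypothesis implies that there is such a space, even a countable regular one with only
  one non-isolated point: its neighbourhood filter is the union of an `ω₁`-chain of countably
  generated filters. In the successor steps a selection of a given lower semicontinuous map of `ℚ`
  is fixed (Michael's theorem for first countable spaces), or its lower semicontinuity is destroyed.
  Such a space is not `C`-selective, since its neighbourhood filter is not countably generated: the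
  map from the pairs of isolated points to the two-point sets would have a continuous selection with
  respect to the coarsest topology which makes it lower semicontinuous, and this would give a
  countable base.
* If all countable Fréchet `α₁`-spaces are first countable (this is consistent by a theorem of Dow and
  Steprāns), then all `ℚ`-selective spaces are `C`-selective.
-/

set_option autoImplicit false

open Cardinal

universe u

namespace Pool.Agent.Results.MP_b7496a_gt.Independent

open Pool.Agent.Q213.CS

/-- (1) If the continuum hypothesis holds, then there is a countable regular `T₁` space which is
`ℚ`-selective but not `C`-selective. (2) If all countable regular Fréchet `α₁`-spaces are first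
countable, then every `ℚ`-selective `T₁` space is `C`-selective. -/
theorem result :
    ((𝔠 : Cardinal.{0}) = ℵ₁ → ∃ (X : Type) (_ : TopologicalSpace X), Countable X ∧ T3Space X ∧
      Selective ℚ X ∧ ¬ CSelective X) ∧
    ((∀ (W : Type) [TopologicalSpace W] [Countable W] [T3Space W],
        FrechetUrysohnSpace W → AlphaOne W → FirstCountableTopology W) →
      ∀ (X : Type u) [TopologicalSpace X] [T1Space X], Selective ℚ X → CSelective X) := by
  refine ⟨fun hCH => ?_, fun hDS X _ _ hX => mainA hDS hX⟩
  obtain ⟨𝒢, h1, h2, h3⟩ := mainB hCH
  exact ⟨XG 𝒢, inferInstance, inferInstance, XG.t3 h1, h2, h3⟩

end Pool.Agent.Results.MP_b7496a_gt.Independent
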